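import Mathlib

/-!
QX (C): from the mass of a set of primes in the intervals `(2 * 2^m, 12 * 2^m - 1]` to counting.

* `cnt_all`: a mass `≥ c 2^m` for all large `m` gives `≥ (c/24) x / log x` primes up to `x`, for all large `x`;
* `cnt_freq`: a mass `≥ c 2^m` for infinitely many `m` gives `≥ (c/12) x / log x` primes up to `x` for
  infinitely many `x`;
* `pigeon`: if the union over `d ∈ T` has mass `≥ c 2^m` for all large `m` then some `d ∈ T` has mass
  `≥ (c / card T) 2^m` for infinitely many `m`.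
-/

set_option autoImplicit false

namespace Pool.Agent.H27.QX

open Finset

/-- One scale. -/
theorem cnt_scale (G : ℕ → Prop) [DecidablePred G] (c : ℝ) (m x : ℕ) (hx : 12 * 2 ^ m ≤ x)
    (h : c * 2 ^ m ≤
      ∑ p ∈ (Ioc (2 * 2 ^ m) (12 * 2 ^ m - 1)).filter (fun p => p.Prime ∧ G p), Real.log p) :
    c * 2 ^ m / Real.log x ≤ (((Icc 1 x).filter (fun p => p.Prime ∧ G p)).card : ℝ) := by
  have hm : 1 ≤ 2 ^ m := Nat.one_le_two_pow
  have hx12 : (12 : ℝ) ≤ x := by exact_mod_cast (show 12 ≤ x by omega)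
  have hlog : 0 < Real.log x := Real.log_pos (by linarith)
  rw [div_le_iff₀ hlog]
  refine h.trans ?_
  have hsub : (Ioc (2 * 2 ^ m) (12 * 2 ^ m - 1)).filter (fun p => p.Prime ∧ G p) ⊆
      (Icc 1 x).filter (fun p => p.Prime ∧ G p) := by
    intro p hp
    rw [mem_filter, mem_Ioc] at hp
    rw [mem_filter, mem_Icc]
    exact ⟨⟨by omega, by omega⟩, hp.2⟩
  have h1 : ∑ p ∈ (Ioc (2 * 2 ^ m) (12 * 2 ^ m - 1)).filter (fun p => p.Prime ∧ G p), Real.log p ≤
      ∑ _p ∈ (Ioc (2 * 2 ^ m) (12 * 2 ^ m - 1)).filter (fun p => p.Prime ∧ G p), Real.log x := by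
    refine sum_le_sum fun p hp => ?_
    rw [mem_filter, mem_Ioc] at hp
    have hp0 : (0 : ℝ) < p := by exact_mod_cast hp.2.1.pos
    exact Real.log_le_log hp0 (by exact_mod_cast (show p ≤ x by omega))
  refine h1.trans ?_
  rw [sum_const, nsmul_eq_mul]
  exact mul_le_mul_of_nonneg_right (by exact_mod_cast card_le_card hsub) hlog.le

/-- (C1) a lower bound for the mass in all large scales gives positive lower density. -/
theorem cnt_all (G : ℕ → Prop) [DecidablePred G] (c : ℝ) (hc : 0 < c) (m₀ : ℕ)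
    (h : ∀ m : ℕ, m₀ ≤ m → c * 2 ^ m ≤
      ∑ p ∈ (Ioc (2 * 2 ^ m) (12 * 2 ^ m - 1)).filter (fun p => p.Prime ∧ G p), Real.log p) :
    ∃ x₀ : ℕ, ∀ x : ℕ, x₀ ≤ x →
      c / 24 * (x / Real.log x) ≤ (((Icc 1 x).filter (fun p => p.Prime ∧ G p)).card : ℝ) := by
  refine ⟨12 * 2 ^ m₀, fun x hx => ?_⟩
  set m : ℕ := Nat.log 2 (x / 12) with hm
  have hm1 : 1 ≤ 2 ^ m₀ := Nat.one_le_two_pow
  have hq : 2 ^ m₀ ≤ x / 12 := by
    rw [Nat.le_div_iff_mul_le (by norm_num)]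
    omega
  have hq0 : x / 12 ≠ 0 := by omega
  have hlow : 2 ^ m ≤ x / 12 := Nat.pow_log_le_self 2 hq0
  have hup : x / 12 < 2 ^ (m + 1) := Nat.lt_pow_succ_log_self (by norm_num) _
  have hmm : m₀ ≤ m := by
    rw [hm]
    exact Nat.le_log_of_pow_le (by norm_num) hq
  have h12 : 12 * 2 ^ m ≤ x := by
    have := Nat.mul_div_le x 12
    omega
  have h24 : x < 24 * 2 ^ m := by
    have h1 : x < 12 * (x / 12) + 12 := by
      have := Nat.div_add_mod x 12
      have := Nat.mod_lt x (show 0 < 12 by norm_num)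
      omega
    rw [pow_succ] at hup
    omega
  have hx12 : (12 : ℝ) ≤ x := by exact_mod_cast (show 12 ≤ x by omega)
  have hlog : 0 < Real.log x := Real.log_pos (by linarith)
  refine le_trans ?_ (cnt_scale G c m x h12 (h m hmm))
  rw [← mul_div_assoc]
  refine div_le_div_of_nonneg_right ?_ hlog.le
  have h24' : (x : ℝ) ≤ 24 * 2 ^ m := by exact_mod_cast h24.le
  nlinarith

/-- (C2) a lower bound for the mass in infinitely many scales gives positive upper density. -/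
theorem cnt_freq (G : ℕ → Prop) [DecidablePred G] (c : ℝ)
    (h : ∀ m₀ : ℕ, ∃ m : ℕ, m₀ ≤ m ∧ c * 2 ^ m ≤
      ∑ p ∈ (Ioc (2 * 2 ^ m) (12 * 2 ^ m - 1)).filter (fun p => p.Prime ∧ G p), Real.log p) :
    ∀ x₀ : ℕ, ∃ x : ℕ, x₀ ≤ x ∧
      c / 12 * (x / Real.log x) ≤ (((Icc 1 x).filter (fun p => p.Prime ∧ G p)).card : ℝ) := by
  intro x₀
  obtain ⟨m, hm, h1⟩ := h x₀
  refine ⟨12 * 2 ^ m, ?_, ?_⟩
  · have : x₀ < 2 ^ x₀ := Nat.lt_two_pow_self
    have h2 : 2 ^ x₀ ≤ 2 ^ m := Nat.pow_le_pow_right (by norm_num) hm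
    omega
  · refine le_trans (le_of_eq ?_) (cnt_scale G c m (12 * 2 ^ m) le_rfl h1)
    push_cast
    ring

/-- (C3) pigeonhole. -/
theorem pigeon {ι : Type*} (T : Finset ι) (G : ι → ℕ → Prop) [∀ i, DecidablePred (G i)]
    [DecidablePred fun p => ∃ d ∈ T, G d p] (c : ℝ) (hc : 0 < c) (m₀ : ℕ)
    (h : ∀ m : ℕ, m₀ ≤ m → c * 2 ^ m ≤
      ∑ p ∈ (Ioc (2 * 2 ^ m) (12 * 2 ^ m - 1)).filter (fun p => p.Prime ∧ ∃ d ∈ T, G d p),
        Real.log p) :
    ∃ d ∈ T, ∀ m₁ : ℕ, ∃ m : ℕ, m₁ ≤ m ∧ c / T.card * 2 ^ m ≤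
      ∑ p ∈ (Ioc (2 * 2 ^ m) (12 * 2 ^ m - 1)).filter (fun p => p.Prime ∧ G d p), Real.log p := by
  classical
  by_contra hcon
  push Not at hcon
  -- for every `d ∈ T` a bound after which the mass is small
  choose! M hM using hcon
  set m : ℕ := max m₀ (T.sup M) with hm
  have h1 := h m (le_max_left _ _)
  have h2 : ∀ d ∈ T, ∑ p ∈ (Ioc (2 * 2 ^ m) (12 * 2 ^ m - 1)).filter (fun p => p.Prime ∧ G d p),
      Real.log p < c / T.card * 2 ^ m := fun d hd =>
    hM d hd m ((le_sup (f := M) hd).trans (le_max_right _ _))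
  have hsub : (Ioc (2 * 2 ^ m) (12 * 2 ^ m - 1)).filter (fun p => p.Prime ∧ ∃ d ∈ T, G d p) ⊆
      T.biUnion (fun d =>
        (Ioc (2 * 2 ^ m) (12 * 2 ^ m - 1)).filter (fun p => p.Prime ∧ G d p)) := by
    intro p hp
    rw [mem_filter] at hp
    obtain ⟨hp1, hp2, d, hd, hG⟩ := hp
    rw [mem_biUnion]
    exact ⟨d, hd, mem_filter.2 ⟨hp1, hp2, hG⟩⟩
  have hnn : ∀ p : ℕ, 0 ≤ Real.log p := fun p => Real.log_natCast_nonneg p
  have h3 : ∑ p ∈ (Ioc (2 * 2 ^ m) (12 * 2 ^ m - 1)).filter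
        (fun p => p.Prime ∧ ∃ d ∈ T, G d p), Real.log p ≤
      ∑ d ∈ T, ∑ p ∈ (Ioc (2 * 2 ^ m) (12 * 2 ^ m - 1)).filter (fun p => p.Prime ∧ G d p),
        Real.log p := by
    refine (sum_le_sum_of_subset_of_nonneg hsub fun p _ _ => hnn p).trans ?_
    have h5 : ∀ (S : Finset ι) (f : ι → Finset ℕ),
        ∑ p ∈ S.biUnion f, Real.log p ≤ ∑ d ∈ S, ∑ p ∈ f d, Real.log p := by
      intro S f
      induction S using Finset.induction_on with
      | empty => simp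
      | insert a S ha ih =>
        rw [biUnion_insert, sum_insert ha]
        have h6 : ∑ p ∈ f a ∪ S.biUnion f, Real.log (p : ℝ) ≤
            ∑ p ∈ f a, Real.log (p : ℝ) + ∑ p ∈ S.biUnion f, Real.log (p : ℝ) := by
          have h7 := sum_union_inter (s₁ := f a) (s₂ := S.biUnion f) (f := fun p : ℕ => Real.log (p : ℝ))
          have h8 : 0 ≤ ∑ p ∈ f a ∩ S.biUnion f, Real.log (p : ℝ) := sum_nonneg fun p _ => hnn p
          linarith
        linarith
    exact h5 T _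
  have hpos : 0 < c * 2 ^ m := by positivity
  have hT : T.Nonempty := by
    rw [nonempty_iff_ne_empty]
    rintro rfl
    simp at h1
    linarith
  have h4 : ∑ d ∈ T, ∑ p ∈ (Ioc (2 * 2 ^ m) (12 * 2 ^ m - 1)).filter (fun p => p.Prime ∧ G d p),
        Real.log p < ∑ _d ∈ T, c / T.card * 2 ^ m := sum_lt_sum_of_nonempty hT h2
  rw [sum_const, nsmul_eq_mul] at h4
  have hcard : (0 : ℝ) < T.card := by exact_mod_cast hT.card_pos
  have h5 : (T.card : ℝ) * (c / T.card * 2 ^ m) = c * 2 ^ m := by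
    field_simp
  linarith

end Pool.Agent.H27.QX
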