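import Pool.Agent.H22.WQ.W0

/-!
QX: if `d ≡ 1 (mod 8)` then `ℚ(√d)` has a prime above `2` with residue field of order `2`.

`θ = (1 + δ)/2` satisfies `θ² - θ = (d - 1)/4 = 2m`.  If `(2, θ)` were the unit ideal, then multiplying
`1 = 2a + θ b` by `θ - 1` one gets `θ - 1 ∈ (2)`; so `(δ - 1)/4` and its conjugate `(-δ - 1)/4` would be
integral, and so would be their sum `-1/2`.  A maximal ideal `P` above `(2, θ)` has norm `2` or `4`; if it
is `4` then `P = (2)`, so `(1 + δ)/4` and `(1 - δ)/4` would be integral, and so would be `1/2`.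
-/

open NumberField IsDedekindDomain

namespace Pool.Agent.H27.QX

/-- `1/2` is not integral. -/
private theorem half_not_int {K : Type*} [Field K] [NumberField K] (x : K) (hx : 2 * x = 1)
    (h : IsIntegral ℤ x) : False := by
  have h1 : x = algebraMap ℚ K (1 / 2) := by
    rw [eq_ratCast]
    push_cast
    linear_combination hx / 2
  rw [h1] at h
  have h2 : IsIntegral ℤ (1 / 2 : ℚ) :=
    (isIntegral_algebraMap_iff (algebraMap ℚ K).injective).1 h
  obtain ⟨n, hn⟩ := IsIntegrallyClosed.isIntegral_iff.1 h2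
  have h3 : (n : ℚ) = 1 / 2 := hn
  have h4 : (2 * n : ℤ) = 1 := by
    have h5 : ((2 * n : ℤ) : ℚ) = ((1 : ℤ) : ℚ) := by
      push_cast
      rw [h3]
      norm_num
    exact_mod_cast h5
  omega

/-- Not both `(1 + δ)/4` ... : if `4 x = e + δ` with `e = ± 1` then `x` is not integral. -/
private theorem quarter_not_int {K : Type*} [Field K] [NumberField K] (hK : Module.finrank ℚ K = 2)
    (d : ℤ) (hd : Squarefree d) (hd1 : d ≠ 1) (δ : K) (hδ : δ ^ 2 = (d : K)) (e : K)
    (he : e = 1 ∨ e = -1) (x : K) (hx : 4 * x = e + δ) (h : IsIntegral ℤ x) : False := by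
  obtain ⟨σ, _, hσ, _⟩ := Pool.Agent.H22.WQ.exists_cj hK d hd hd1 δ hδ
  have h1 : IsIntegral ℤ (σ x) := h.map σ.toAlgHom
  have h4 : 4 * σ x = e - δ := by
    have h5 := congrArg σ hx
    rw [map_mul, map_add, hσ, map_ofNat] at h5
    rcases he with rfl | rfl
    · rw [map_one] at h5
      rw [h5]; ring
    · rw [map_neg, map_one] at h5
      rw [h5]; ring
  rcases he with rfl | rfl
  · refine half_not_int (x + σ x) ?_ (h.add h1)
    linear_combination hx / 2 + h4 / 2
  · refine half_not_int (-(x + σ x)) ?_ (h.add h1).neg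
    linear_combination -(hx / 2) - h4 / 2

theorem exists_two {K : Type*} [Field K] [NumberField K] (hK : Module.finrank ℚ K = 2) (d : ℤ)
    (hd : Squarefree d) (hd1 : d ≠ 1) (hd8 : d % 8 = 1) (δ : K) (hδ : δ ^ 2 = (d : K)) :
    ∃ Q : HeightOneSpectrum (𝓞 K), Nat.card (𝓞 K ⧸ Q.asIdeal) = 2 := by
  obtain ⟨m, hm⟩ : ∃ m : ℤ, d = 8 * m + 1 := ⟨d / 8, by omega⟩
  -- the integral element θ
  have hθint : IsIntegral ℤ ((1 + δ) / 2) := by
    refine ⟨Polynomial.X ^ 2 - Polynomial.X - Polynomial.C (2 * m), ?_, ?_⟩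
    · have : (Polynomial.X ^ 2 - Polynomial.X - Polynomial.C (2 * m) : Polynomial ℤ) =
          Polynomial.X ^ 2 - (Polynomial.X + Polynomial.C (2 * m)) := by ring
      rw [this]
      refine Polynomial.monic_X_pow_sub ?_
      refine (Polynomial.degree_add_le _ _).trans_lt ?_
      refine max_lt ?_ ?_
      · exact lt_of_le_of_lt Polynomial.degree_X_le (by norm_num)
      · exact lt_of_le_of_lt Polynomial.degree_C_le (by norm_num)
    · simp only [Polynomial.eval₂_sub, Polynomial.eval₂_pow, Polynomial.eval₂_X,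
        Polynomial.eval₂_C]
      have h1 : (algebraMap ℤ K) (2 * m) = ((2 * m : ℤ) : K) := by simp
      rw [h1]
      rw [hm] at hδ
      push_cast at hδ ⊢
      linear_combination hδ / 4
  let θ : 𝓞 K := ⟨(1 + δ) / 2, hθint⟩
  have hθK : ((θ : 𝓞 K) : K) = (1 + δ) / 2 := rfl
  have hθ : θ * (θ - 1) = 2 * (m : 𝓞 K) := by
    apply RingOfIntegers.ext
    have h1 : (((m : 𝓞 K)) : K) = (m : K) := by simp
    have h2 : ((θ * (θ - 1) : 𝓞 K) : K) = ((1 + δ) / 2) * ((1 + δ) / 2 - 1) := rfl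
    have h3 : ((2 * (m : 𝓞 K) : 𝓞 K) : K) = 2 * (((m : 𝓞 K)) : K) := rfl
    rw [h2, h3, h1]
    rw [hm] at hδ
    push_cast at hδ
    linear_combination hδ / 4
  have htwo : ∀ x : 𝓞 K, θ - 1 = 2 * x → False := by
    intro x hx
    refine quarter_not_int hK d hd hd1 δ hδ (-1) (Or.inr rfl) (x : K) ?_ x.2
    have h1 : (1 + δ) / 2 - 1 = 2 * (x : K) := congrArg (fun y : 𝓞 K => (y : K)) hx
    linear_combination -2 * h1
  have htwo' : ∀ x : 𝓞 K, θ = 2 * x → False := by
    intro x hx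
    refine quarter_not_int hK d hd hd1 δ hδ 1 (Or.inl rfl) (x : K) ?_ x.2
    have h1 : (1 + δ) / 2 = 2 * (x : K) := congrArg (fun y : 𝓞 K => (y : K)) hx
    linear_combination -2 * h1
  -- the ideal (2, θ) is proper
  have hI : Ideal.span {(2 : 𝓞 K), θ} ≠ ⊤ := by
    intro h
    have h1 : (1 : 𝓞 K) ∈ Ideal.span {(2 : 𝓞 K), θ} := by rw [h]; trivial
    rw [Ideal.mem_span_pair] at h1
    obtain ⟨a, b, hab⟩ := h1
    refine htwo (a * (θ - 1) + b * m) ?_
    have h2 : (θ - 1) = (a * 2 + b * θ) * (θ - 1) := by rw [hab, one_mul]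
    calc θ - 1 = (a * 2 + b * θ) * (θ - 1) := h2
      _ = 2 * (a * (θ - 1)) + b * (θ * (θ - 1)) := by ring
      _ = 2 * (a * (θ - 1)) + b * (2 * m) := by rw [hθ]
      _ = 2 * (a * (θ - 1) + b * m) := by ring
  obtain ⟨P, hPmax, hPle⟩ := Ideal.exists_le_maximal _ hI
  have h2P : (2 : 𝓞 K) ∈ P := hPle (Ideal.subset_span (by simp))
  have hθP : θ ∈ P := hPle (Ideal.subset_span (by simp))
  have hP0 : P ≠ ⊥ := by
    rintro rfl
    rw [Ideal.mem_bot] at h2P
    exact two_ne_zero h2P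
  refine ⟨⟨P, hPmax.isPrime, hP0⟩, ?_⟩
  have hcard : Nat.card (𝓞 K ⧸ P) = Ideal.absNorm P := by
    rw [Ideal.absNorm_apply]
    rfl
  change Nat.card (𝓞 K ⧸ P) = 2
  rw [hcard]
  -- the norm divides 4
  have hle : Ideal.span {(2 : 𝓞 K)} ≤ P := by
    rw [Ideal.span_singleton_le_iff_mem]
    exact h2P
  have hN2 : Ideal.absNorm (Ideal.span {(2 : 𝓞 K)}) = 4 := by
    rw [Ideal.absNorm_span_singleton]
    have h1 : (2 : 𝓞 K) = algebraMap ℤ (𝓞 K) 2 := by simp
    rw [h1, Algebra.norm_algebraMap, RingOfIntegers.rank, hK]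
    norm_num
  have hdvd : Ideal.absNorm P ∣ 4 := by
    rw [← hN2]
    exact Ideal.absNorm_dvd_absNorm_of_le hle
  have hne1 : Ideal.absNorm P ≠ 1 := by
    intro h
    exact hPmax.ne_top (Ideal.absNorm_eq_one_iff.1 h)
  have hne4 : Ideal.absNorm P ≠ 4 := by
    intro h
    obtain ⟨J, hJ⟩ := Ideal.dvd_iff_le.2 hle
    have h1 := congrArg Ideal.absNorm hJ
    rw [map_mul, hN2, h] at h1
    have h2 : Ideal.absNorm J = 1 := by omega
    rw [Ideal.absNorm_eq_one_iff.1 h2, Ideal.mul_top] at hJ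
    rw [← hJ, Ideal.mem_span_singleton] at hθP
    obtain ⟨x, hx⟩ := hθP
    exact htwo' x hx
  have h4 : Ideal.absNorm P ∈ Nat.divisors 4 := Nat.mem_divisors.2 ⟨hdvd, by norm_num⟩
  have h5 : Nat.divisors 4 = {1, 2, 4} := by decide
  rw [h5] at h4
  simp only [Finset.mem_insert, Finset.mem_singleton] at h4
  rcases h4 with h | h | h
  · exact absurd h hne1
  · exact h
  · exact absurd h hne4

end Pool.Agent.H27.QX
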